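import Mathlib
import Pool.Agent.TH497.PW.IntFlow
import Pool.Agent.TH362.FP.Pos
import Pool.Agent.Y335.FL.Main
import Pool.Agent.Y335.FL.Local11
import Pool.Agent.Run7.h335.MF.Mod

set_option autoImplicit false

/-!
# Nowhere-zero 5-flows in graphs of matching number at most 62 (MP_c8786f_co)

Every bridgeless multigraph without 63 pairwise disjoint edges has a nowhere-zero 5-flow, and the
characteristic polynomial of its bond matroid is positive at all integers `q ≥ 5`.  The order, the
degrees and the connectivity are arbitrary.  (The starting result `SmallComponents` gives matching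
number at most 31, by way of vertex covers.  For Tutte's 12-cage the matching number is 63.)

More generally let `F` be the union of a chain of cycles, each with at most eleven edges outside the
union of the earlier ones; it is sufficient that the contracted graph `G / F` has no matching with 63
edges.

Proof.  (1) Matchings of a quotient (by identification of vertices) are matchings of the graph, so the
class of the graphs without 63 disjoint edges is closed under contractions.  Let `H` be a
counterexample with as few edges as possible.  Circuits with at most eleven edges can be contracted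
(library `Y335/FL`), and so can one of two edges which form a cut; hence (`Y358/IN`) `H` is simple, has
girth at least twelve, and its `n ≥ 126` vertices which are not isolated have degree at least three.

(2) A set of `x` vertices of `H` spans at most `3 (x - 1) / 2` edges if `1 ≤ x ≤ 121`, and at most
`(3 x - 1) / 2` edges if `x ≤ 125`: delete vertices with at most one neighbour, and apply the Moore
bound for irregular graphs of girth twelve (Alon, Hoory and Linial; `N393/AHL`) to the rest, in the
tangent form `126 + 258 (y - 2) ≤ 2 (1 + y + ... + y ^ 5)`.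

(3) By the theorem of Tutte and Berge (`H168DD/TB`) it is enough that the number `q` of the odd
components of `H - A` is at most `k + n - 126` for every set `A` of `k` vertices.  Otherwise let `R` be
`n - k - q`; then `R ≤ 125 - 2 k` is at least the sum of the numbers `|O| - 1` over the odd components
`O`, and by (2) the degree sum of the vertices outside `A` inside of `H - A` is at most
`3 (n - k) - 3 q` (if a component has more than 121 vertices then `k ≤ 2` and one has to add 2).  So at
least `3 q ≥ 3 (k + 1)` edges join `A` to its complement.  But every degree is at most `(n - 33) / 31`,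
which gives `93 q ≤ k (n - 33) ≤ k (92 - k + q)` and `(k + 1) (93 - k) ≤ k (92 - k)`, a
contradiction.

(4) A flow of `G / F` is lifted along the chain (library `Y335/FL`).
-/

namespace Pool.Agent.Results.MP_c8786f_co.MatchingNumberSixtyTwo

open Finset Pool.Agent.TH497.PW

variable {V E : Type}

/-- The edges with exactly one end in `X`. -/
def boundary [DecidableEq V] [Fintype E] (src dst : E → V) (X : Finset V) : Finset E :=
  Finset.univ.filter (fun e => ¬ (src e ∈ X ↔ dst e ∈ X))

/-- Kirchhoff's law. -/
def IsFlow [DecidableEq V] [Fintype E] (src dst : E → V) (f : E → ℤ) : Prop :=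
  ∀ v : V, ∑ e ∈ Finset.univ.filter (fun e => src e = v), f e
    = ∑ e ∈ Finset.univ.filter (fun e => dst e = v), f e

/-- The map `r` contracts the edges of `F` and nothing else: the ends of every edge of `F` have the
same image, and no set `Y` of vertices without boundary edges in `F` separates `v` and `r v` (so `v`
and `r v` are in the same component of the graph formed by the edges of `F`). The contracted graph
`G / F` is the graph in which the ends of the edge `e` are `r (src e)` and `r (dst e)`. -/
def Contracts [DecidableEq V] [Fintype E] (src dst : E → V) (F : Finset E) (r : V → V) : Prop :=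
  (∀ e ∈ F, r (src e) = r (dst e)) ∧
    ∀ v, ∀ Y : Finset V, Disjoint (boundary src dst Y) F → (v ∈ Y ↔ r v ∈ Y)

/-- The edges of `M` are not loops and no two of them have a common end. -/
def IsMatching (s t : E → V) (M : Finset E) : Prop :=
  (∀ e ∈ M, s e ≠ t e) ∧ ∀ e ∈ M, ∀ e' ∈ M, e ≠ e' →
    s e ≠ s e' ∧ s e ≠ t e' ∧ t e ≠ s e' ∧ t e ≠ t e'

/-- The number of the components of the graph with the vertices `V` and the edges `A`. -/
noncomputable def components (src dst : E → V) (A : Finset E) : ℕ :=
  Nat.card (SimpleGraph.fromRel
    (fun u v : V => ∃ e ∈ A, src e = u ∧ dst e = v)).ConnectedComponent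

/-- The rank of `A` in the cycle matroid of the graph. -/
noncomputable def cycleRank [Fintype V] (src dst : E → V) (A : Finset E) : ℕ :=
  Fintype.card V - components src dst A

/-- The rank of `A` in the bond matroid of the graph (the dual of the cycle matroid). -/
noncomputable def bondRank [Fintype V] [Fintype E] [DecidableEq E] (src dst : E → V)
    (A : Finset E) : ℕ :=
  A.card + cycleRank src dst Aᶜ - cycleRank src dst Finset.univ

/-- The characteristic polynomial of the bond matroid at the integer `x`. -/
noncomputable def bondCharPoly [Fintype V] [Fintype E] [DecidableEq E] (src dst : E → V)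
    (x : ℤ) : ℤ :=
  ∑ A : Finset E, (-1) ^ A.card * x ^ (bondRank src dst Finset.univ - bondRank src dst A)

theorem isFlow_iff [DecidableEq V] [Fintype E] (src dst : E → V) (f : E → ℤ) :
    IsFlow src dst f ↔
      ∀ v, ∑ e, f e * ((if src e = v then 1 else 0) - (if dst e = v then 1 else 0)) = 0 := by
  unfold IsFlow
  refine forall_congr' fun v => ?_
  rw [Finset.sum_filter, Finset.sum_filter, ← sub_eq_zero, ← Finset.sum_sub_distrib]
  have : ∀ e, (if src e = v then f e else 0) - (if dst e = v then f e else 0)
      = f e * ((if src e = v then 1 else 0) - (if dst e = v then 1 else 0)) := by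
    intro e
    by_cases h1 : src e = v <;> by_cases h2 : dst e = v <;> simp [h1, h2]
  rw [Finset.sum_congr rfl (fun e _ => this e)]

theorem nzf [Fintype V] [DecidableEq V] [Fintype E] [DecidableEq E] (src dst : E → V)
    (h : Pool.Agent.TH676.Z.FlowOn src dst ∅ ∅) : NZF src dst := by
  obtain ⟨f, h1, _, h3⟩ := h
  refine ⟨f, fun e => h3 e (Finset.notMem_empty _) (Finset.notMem_empty _), fun x => ?_⟩
  rw [← h1 x]
  unfold Pool.Agent.TH676.Z.bd
  refine Finset.sum_congr rfl fun e _ => ?_
  unfold ic
  by_cases h4 : src e = x <;> by_cases h5 : dst e = x <;> simp [h4, h5]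

theorem charPoly_pos [Fintype V] [DecidableEq V] [Fintype E] [DecidableEq E] (src dst : E → V)
    (f : E → ℤ) (h1 : IsFlow src dst f) (h2 : ∀ e, 1 ≤ |f e| ∧ |f e| ≤ 4) (q : ℕ) (hq : 5 ≤ q) :
    0 < bondCharPoly src dst q :=
  Pool.Agent.TH362.FP.chr_pos src dst f h2 h1 q hq

theorem conclude [Fintype V] [DecidableEq V] [Fintype E] [DecidableEq E] (src dst : E → V)
    (h : Pool.Agent.TH676.Z.FlowOn src dst ∅ ∅) :
    (∃ f : E → ℤ, IsFlow src dst f ∧ ∀ e, 1 ≤ |f e| ∧ |f e| ≤ 4) ∧
      ∀ q : ℕ, 5 ≤ q → 0 < bondCharPoly src dst q := by
  obtain ⟨F, hF, hF0⟩ := int_flow src dst (nzf src dst h)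
  have hF1 := (isFlow_iff src dst F).mpr hF0
  exact ⟨⟨F, hF1, hF⟩, fun q hq => charPoly_pos src dst F hF1 hF q hq⟩

/-- the reduction modulo five of a flow with values in `{0, 1, -1}` -/
theorem mod5 [Fintype V] [DecidableEq V] [Fintype E] [DecidableEq E] (src dst : E → V)
    (C : Finset E) (h : ∃ z : E → ℤ, IsFlow src dst z ∧ (∀ e, z e = 0 ∨ z e = 1 ∨ z e = -1) ∧
      ∀ e, z e ≠ 0 ↔ e ∈ C) :
    ∃ z : E → ZMod 5, (∀ v, Pool.Agent.TH676.Z.bd src dst z v = 0) ∧
      (∀ e, z e = 0 ∨ z e = 1 ∨ z e = -1) ∧ ∀ e, z e ≠ 0 ↔ e ∈ C := by
  obtain ⟨z, h1, h2, h3⟩ := h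
  refine ⟨fun e => ((z e : ℤ) : ZMod 5), fun v => ?_, fun e => ?_, fun e => ?_⟩
  · have h4 := h1 v
    rw [Finset.sum_filter, Finset.sum_filter, ← sub_eq_zero, ← Finset.sum_sub_distrib] at h4
    have h5 := congrArg (fun t : ℤ => (t : ZMod 5)) h4
    simp only [Int.cast_sum, Int.cast_sub, Int.cast_zero] at h5
    refine Eq.trans ?_ h5
    unfold Pool.Agent.TH676.Z.bd
    rw [Finset.sum_sub_distrib, Finset.sum_sub_distrib]
    congr 1 <;>
    · refine Finset.sum_congr rfl fun e _ => ?_
      split_ifs <;> simp
  · rcases h2 e with h | h | h <;> simp [h]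
  · rw [← h3 e]
    have h10 : (1 : ZMod 5) ≠ 0 := by decide
    rcases h2 e with h | h | h <;> simp [h, h10]

/-- Let `src dst : E → V` be a bridgeless multigraph, let `C` be a chain of cycles each of which has at
most eleven edges outside of the union of the earlier ones (for instance the empty chain), and let `r`
contract the union of the chain.  If the contracted graph has no matching with 63 edges, then the
graph has a nowhere-zero 5-flow, and the characteristic polynomial of the bond matroid is positive at
all integers `q ≥ 5`. -/
theorem result :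
    ∀ (V E : Type) [Fintype V] [DecidableEq V] [Fintype E] [DecidableEq E] (src dst : E → V)
      (m : ℕ) (C : Fin m → Finset E) (r : V → V),
      (∀ Y : Finset V, (boundary src dst Y).card ≠ 1) →
      (∀ i, ∃ z : E → ℤ, IsFlow src dst z ∧ (∀ e, z e = 0 ∨ z e = 1 ∨ z e = -1) ∧
        ∀ e, z e ≠ 0 ↔ e ∈ C i) →
      (∀ i, (C i \ (Finset.univ.filter (fun j => j < i)).biUnion C).card ≤ 11) →
      Contracts src dst (Finset.univ.biUnion C) r →
      (∀ M : Finset E, IsMatching (r ∘ src) (r ∘ dst) M → M.card ≤ 62) →
      (∃ f : E → ℤ, IsFlow src dst f ∧ ∀ e, 1 ≤ |f e| ∧ |f e| ≤ 4) ∧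
      ∀ q : ℕ, 5 ≤ q → 0 < bondCharPoly src dst q := by
  intro V E _ _ _ _ src dst m C r hb hC hnew hr hM
  have h3 := Pool.Agent.Run7.h335.MF.flow_mat_mod Pool.Agent.Y335.FL.contract_all
    Pool.Agent.Y335.FL.quot' (s := src) (d := dst) (F := Finset.univ.biUnion C) (r := r)
    (fun Y _ => by rw [Finset.sdiff_empty]; exact hb Y) hr hM
  exact conclude src dst
    (Pool.Agent.Y335.FL.lift_all V E src dst m C (fun i => mod5 src dst (C i) (hC i)) hnew h3)

/-- Consequence: bridgeless graphs of matching number at most 62. -/
theorem matching_number (V E : Type) [Fintype V] [DecidableEq V] [Fintype E] [DecidableEq E]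
    (src dst : E → V) (hb : ∀ Y : Finset V, (boundary src dst Y).card ≠ 1)
    (h : ∀ M : Finset E, IsMatching src dst M → M.card ≤ 62) :
    ∃ f : E → ℤ, IsFlow src dst f ∧ ∀ e, 1 ≤ |f e| ∧ |f e| ≤ 4 :=
  (result V E src dst 0 (fun _ => ∅) id hb (fun i => i.elim0) (fun i => i.elim0)
    ⟨fun e he => by simp at he, fun v Y _ => Iff.rfl⟩ h).1

end Pool.Agent.Results.MP_c8786f_co.MatchingNumberSixtyTwo
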