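import Mathlib
import Pool.Agent.TH497.PW.IntFlow
import Pool.Agent.TH362.FP.Pos
import Pool.Agent.Y335.FL.Main
import Pool.Agent.Y335.FL.Local11
import Pool.Agent.Run7.h85.FL.Pack

set_option autoImplicit false

/-!
# Nowhere-zero 5-flows in graphs without 63 disjoint connected sets with two branch vertices
(MP_c8786f_co)

Every bridgeless multigraph without 63 pairwise disjoint connected vertex sets, each of which contains
two vertices of degree at least three and has at least four neighbours, has a nowhere-zero 5-flow,
and the characteristic polynomial of its bond matroid is positive at all integers `q ≥ 5`.  The order,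
the degrees and the connectivity are arbitrary.

For instance this holds

* if there is a set `S` of at most 62 vertices such that every component of `G - S` contains at most
  one vertex of degree at least three (degrees in `G`): every connected set with two of them
  meets `S`.  The starting result `SmallComponents` has the case in which `G - S` has no edges, and
  `St_order` of the library `Y335/FL` the case of at most 125 vertices of degree at least three;
* if `G` has matching number at most 62 (`MatchingNumberSixtyTwo`, helper335), and, more generally, if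
  among any 63 pairwise disjoint paths with at least one edge there is one without two vertices of
  degree at least three;
* if every connected set with at least four neighbours and two vertices of degree at least three meets
  a fixed set of 62 vertices; so the components of `G - S` may also be arbitrarily large, as long as
  their connected subsets have at most three neighbours.

More generally let `F` be the union of a chain of cycles, each with at most eleven edges outside the
union of the earlier ones; it is sufficient that the contracted graph `G / F` has no 63 such sets.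

Proof.  (1) The class is closed under contractions: if `H` arises from `G` by the contraction of the
edge `ab` then the preimage of a connected set is connected, the preimage of a vertex of degree at
least three contains a vertex of degree at least three (as `d(a) + d(b) ≥ d(ab) + 2`), and every
neighbour of the set is the image of a neighbour of the preimage.  (The class is closed under minors
only without the condition on the neighbours.)

(2) Let `H` be a counterexample with as few edges as possible.  Circuits with at most eleven edges can
be contracted (library `Y335/FL`), and so can one of two edges which form a cut; hence (`Y358/IN`)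
`H` is simple, has girth at least twelve, and its vertices which are not isolated have degree at
least three.  By `Run7/h335/MF` (helper335: Tutte-Berge formula and the Moore bound for irregular
graphs) `H` has a matching which covers 126 vertices.  The ends of an edge of this matching form a
connected set with two vertices of degree at least three and with at least four neighbours, as there
are no triangles.

(3) A flow of `G / F` is lifted along the chain (library `Y335/FL`).
-/

namespace Pool.Agent.Results.MP_c8786f_co.PackingBranchVertices

open Finset Pool.Agent.TH497.PW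

variable {V E : Type}

/-- The edges with exactly one end in `X`. -/
def boundary [DecidableEq V] [Fintype E] (src dst : E → V) (X : Finset V) : Finset E :=
  Finset.univ.filter (fun e => ¬ (src e ∈ X ↔ dst e ∈ X))

/-- Kirchhoff's law. -/
def IsFlow [DecidableEq V] [Fintype E] (src dst : E → V) (f : E → ℤ) : Prop :=
  ∀ v : V, ∑ e ∈ Finset.univ.filter (fun e => src e = v), f e
    = ∑ e ∈ Finset.univ.filter (fun e => dst e = v), f e

/-- The map `r` contracts the edges of `F` and nothing else: the ends of every edge of `F` have the
same image, and no set `Y` of vertices without boundary edges in `F` separates `v` and `r v` (so `v`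
and `r v` are in the same component of the graph formed by the edges of `F`). The contracted graph
`G / F` is the graph in which the ends of the edge `e` are `r (src e)` and `r (dst e)`. -/
def Contracts [DecidableEq V] [Fintype E] (src dst : E → V) (F : Finset E) (r : V → V) : Prop :=
  (∀ e ∈ F, r (src e) = r (dst e)) ∧
    ∀ v, ∀ Y : Finset V, Disjoint (boundary src dst Y) F → (v ∈ Y ↔ r v ∈ Y)

/-- The set `X` of vertices is connected: for every set `A` of vertices which contains some but not
all elements of `X`, an edge with both ends in `X` has exactly one end in `A`. -/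
def Connected (s t : E → V) (X : Finset V) : Prop :=
  ∀ A : Set V, (∃ v ∈ X, v ∈ A) → (∃ v ∈ X, v ∉ A) →
    ∃ e, s e ∈ X ∧ t e ∈ X ∧ ¬ (s e ∈ A ↔ t e ∈ A)

/-- The neighbours of the set `X`: the vertices outside of `X` joined by an edge to `X`. -/
def neighbours [Fintype V] [DecidableEq V] [Fintype E] (s t : E → V) (X : Finset V) :
    Finset V :=
  Finset.univ.filter (fun v => v ∉ X ∧ ∃ e, (s e = v ∧ t e ∈ X) ∨ (t e = v ∧ s e ∈ X))

/-- `X` is connected, contains two vertices of degree at least three (loops are not counted), and has
at least four neighbours. -/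
def Heavy [Fintype V] [DecidableEq V] [Fintype E] (s t : E → V) (X : Finset V) : Prop :=
  Connected s t X ∧
    (∃ x ∈ X, ∃ y ∈ X, x ≠ y ∧ 3 ≤ (boundary s t {x}).card ∧ 3 ≤ (boundary s t {y}).card) ∧
    4 ≤ (neighbours s t X).card

/-- The number of the components of the graph with the vertices `V` and the edges `A`. -/
noncomputable def components (src dst : E → V) (A : Finset E) : ℕ :=
  Nat.card (SimpleGraph.fromRel
    (fun u v : V => ∃ e ∈ A, src e = u ∧ dst e = v)).ConnectedComponent

/-- The rank of `A` in the cycle matroid of the graph. -/
noncomputable def cycleRank [Fintype V] (src dst : E → V) (A : Finset E) : ℕ :=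
  Fintype.card V - components src dst A

/-- The rank of `A` in the bond matroid of the graph (the dual of the cycle matroid). -/
noncomputable def bondRank [Fintype V] [Fintype E] [DecidableEq E] (src dst : E → V)
    (A : Finset E) : ℕ :=
  A.card + cycleRank src dst Aᶜ - cycleRank src dst Finset.univ

/-- The characteristic polynomial of the bond matroid at the integer `x`. -/
noncomputable def bondCharPoly [Fintype V] [Fintype E] [DecidableEq E] (src dst : E → V)
    (x : ℤ) : ℤ :=
  ∑ A : Finset E, (-1) ^ A.card * x ^ (bondRank src dst Finset.univ - bondRank src dst A)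

theorem isFlow_iff [DecidableEq V] [Fintype E] (src dst : E → V) (f : E → ℤ) :
    IsFlow src dst f ↔
      ∀ v, ∑ e, f e * ((if src e = v then 1 else 0) - (if dst e = v then 1 else 0)) = 0 := by
  unfold IsFlow
  refine forall_congr' fun v => ?_
  rw [Finset.sum_filter, Finset.sum_filter, ← sub_eq_zero, ← Finset.sum_sub_distrib]
  have : ∀ e, (if src e = v then f e else 0) - (if dst e = v then f e else 0)
      = f e * ((if src e = v then 1 else 0) - (if dst e = v then 1 else 0)) := by
    intro e
    by_cases h1 : src e = v <;> by_cases h2 : dst e = v <;> simp [h1, h2]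
  rw [Finset.sum_congr rfl (fun e _ => this e)]

theorem nzf [Fintype V] [DecidableEq V] [Fintype E] [DecidableEq E] (src dst : E → V)
    (h : Pool.Agent.TH676.Z.FlowOn src dst ∅ ∅) : NZF src dst := by
  obtain ⟨f, h1, _, h3⟩ := h
  refine ⟨f, fun e => h3 e (Finset.notMem_empty _) (Finset.notMem_empty _), fun x => ?_⟩
  rw [← h1 x]
  unfold Pool.Agent.TH676.Z.bd
  refine Finset.sum_congr rfl fun e _ => ?_
  unfold ic
  by_cases h4 : src e = x <;> by_cases h5 : dst e = x <;> simp [h4, h5]

theorem charPoly_pos [Fintype V] [DecidableEq V] [Fintype E] [DecidableEq E] (src dst : E → V)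
    (f : E → ℤ) (h1 : IsFlow src dst f) (h2 : ∀ e, 1 ≤ |f e| ∧ |f e| ≤ 4) (q : ℕ) (hq : 5 ≤ q) :
    0 < bondCharPoly src dst q :=
  Pool.Agent.TH362.FP.chr_pos src dst f h2 h1 q hq

theorem conclude [Fintype V] [DecidableEq V] [Fintype E] [DecidableEq E] (src dst : E → V)
    (h : Pool.Agent.TH676.Z.FlowOn src dst ∅ ∅) :
    (∃ f : E → ℤ, IsFlow src dst f ∧ ∀ e, 1 ≤ |f e| ∧ |f e| ≤ 4) ∧
      ∀ q : ℕ, 5 ≤ q → 0 < bondCharPoly src dst q := by
  obtain ⟨F, hF, hF0⟩ := int_flow src dst (nzf src dst h)
  have hF1 := (isFlow_iff src dst F).mpr hF0
  exact ⟨⟨F, hF1, hF⟩, fun q hq => charPoly_pos src dst F hF1 hF q hq⟩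

/-- the reduction modulo five of a flow with values in `{0, 1, -1}` -/
theorem mod5 [Fintype V] [DecidableEq V] [Fintype E] [DecidableEq E] (src dst : E → V)
    (C : Finset E) (h : ∃ z : E → ℤ, IsFlow src dst z ∧ (∀ e, z e = 0 ∨ z e = 1 ∨ z e = -1) ∧
      ∀ e, z e ≠ 0 ↔ e ∈ C) :
    ∃ z : E → ZMod 5, (∀ v, Pool.Agent.TH676.Z.bd src dst z v = 0) ∧
      (∀ e, z e = 0 ∨ z e = 1 ∨ z e = -1) ∧ ∀ e, z e ≠ 0 ↔ e ∈ C := by
  obtain ⟨z, h1, h2, h3⟩ := h
  refine ⟨fun e => ((z e : ℤ) : ZMod 5), fun v => ?_, fun e => ?_, fun e => ?_⟩
  · have h4 := h1 v
    rw [Finset.sum_filter, Finset.sum_filter, ← sub_eq_zero, ← Finset.sum_sub_distrib] at h4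
    have h5 := congrArg (fun t : ℤ => (t : ZMod 5)) h4
    simp only [Int.cast_sum, Int.cast_sub, Int.cast_zero] at h5
    refine Eq.trans ?_ h5
    unfold Pool.Agent.TH676.Z.bd
    rw [Finset.sum_sub_distrib, Finset.sum_sub_distrib]
    congr 1 <;>
    · refine Finset.sum_congr rfl fun e _ => ?_
      split_ifs <;> simp
  · rcases h2 e with h | h | h <;> simp [h]
  · rw [← h3 e]
    have h10 : (1 : ZMod 5) ≠ 0 := by decide
    rcases h2 e with h | h | h <;> simp [h, h10]

/-- the two definitions of the degree -/
theorem dg_eq [Fintype V] [DecidableEq V] [Fintype E] [DecidableEq E] (s t : E → V) (x : V) :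
    Pool.Agent.Y335.FL.dg s t x = (boundary s t {x}).card := by
  unfold Pool.Agent.Y335.FL.dg boundary
  congr 1
  ext e
  simp only [Finset.mem_filter, Finset.mem_univ, true_and, Finset.mem_singleton]
  constructor
  · rintro ⟨h1, h | h⟩ h2
    · exact h1 (h.trans (h2.1 h).symm)
    · exact h1 ((h2.2 h).trans h.symm)
  · intro h
    by_cases h1 : s e = x
    · exact ⟨fun h2 => h (by rw [h2]), Or.inl h1⟩
    · by_cases h2 : t e = x
      · exact ⟨fun h3 => h1 (h3.trans h2), Or.inr h2⟩
      · exact absurd ⟨fun h3 => absurd h3 h1, fun h3 => absurd h3 h2⟩ h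

theorem heavy_of [Fintype V] [DecidableEq V] [Fintype E] [DecidableEq E] {s t : E → V}
    {X : Finset V} (h : Pool.Agent.Run7.H85.FL.Pk s t X) : Heavy s t X := by
  obtain ⟨h1, ⟨x, hx, y, hy, hxy, hdx, hdy⟩, h3⟩ := h
  refine ⟨fun A hA hA' => h1 (fun v => v ∈ A) hA hA', ⟨x, hx, y, hy, hxy, ?_, ?_⟩, h3⟩
  · rw [← dg_eq]
    exact hdx
  · rw [← dg_eq]
    exact hdy

/-- Let `src dst : E → V` be a bridgeless multigraph, let `C` be a chain of cycles each of which has at
most eleven edges outside of the union of the earlier ones (for instance the empty chain), and let `r`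
contract the union of the chain.  If the contracted graph has no 63 pairwise disjoint connected vertex
sets each of which contains two vertices of degree at least three and has at least four neighbours,
then the graph has a nowhere-zero 5-flow, and the characteristic polynomial of the bond matroid is
positive at all integers `q ≥ 5`. -/
theorem result :
    ∀ (V E : Type) [Fintype V] [DecidableEq V] [Fintype E] [DecidableEq E] (src dst : E → V)
      (m : ℕ) (C : Fin m → Finset E) (r : V → V),
      (∀ Y : Finset V, (boundary src dst Y).card ≠ 1) →
      (∀ i, ∃ z : E → ℤ, IsFlow src dst z ∧ (∀ e, z e = 0 ∨ z e = 1 ∨ z e = -1) ∧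
        ∀ e, z e ≠ 0 ↔ e ∈ C i) →
      (∀ i, (C i \ (Finset.univ.filter (fun j => j < i)).biUnion C).card ≤ 11) →
      Contracts src dst (Finset.univ.biUnion C) r →
      (¬ ∃ P : Fin 63 → Finset V, (∀ i j, i ≠ j → Disjoint (P i) (P j)) ∧
        ∀ i, Heavy (r ∘ src) (r ∘ dst) (P i)) →
      (∃ f : E → ℤ, IsFlow src dst f ∧ ∀ e, 1 ≤ |f e| ∧ |f e| ≤ 4) ∧
      ∀ q : ℕ, 5 ≤ q → 0 < bondCharPoly src dst q := by
  intro V E _ _ _ _ src dst m C r hb hC hnew hr hP
  have h3 := Pool.Agent.Run7.H85.FL.flow_pack_mod Pool.Agent.Y335.FL.contract_all
    Pool.Agent.Y335.FL.quot' (s := src) (d := dst) (F := Finset.univ.biUnion C) (r := r)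
    (fun Y _ => by rw [Finset.sdiff_empty]; exact hb Y) hr
    (fun ⟨P, h1, h2⟩ => hP ⟨P, h1, fun i => heavy_of (h2 i)⟩)
  exact conclude src dst
    (Pool.Agent.Y335.FL.lift_all V E src dst m C (fun i => mod5 src dst (C i) (hC i)) hnew h3)

/-- Consequence: graphs without 63 disjoint connected sets with two vertices of degree at least
three. -/
theorem packing (V E : Type) [Fintype V] [DecidableEq V] [Fintype E] [DecidableEq E]
    (src dst : E → V) (hb : ∀ Y : Finset V, (boundary src dst Y).card ≠ 1)
    (h : ¬ ∃ P : Fin 63 → Finset V, (∀ i j, i ≠ j → Disjoint (P i) (P j)) ∧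
      ∀ i, Heavy src dst (P i)) :
    ∃ f : E → ℤ, IsFlow src dst f ∧ ∀ e, 1 ≤ |f e| ∧ |f e| ≤ 4 :=
  (result V E src dst 0 (fun _ => ∅) id hb (fun i => i.elim0) (fun i => i.elim0)
    ⟨fun e he => by simp at he, fun v Y _ => Iff.rfl⟩ h).1

/-- Consequence: there is a set `S` of at most 62 vertices which meets every connected set with two
vertices of degree at least three. -/
theorem deletion (V E : Type) [Fintype V] [DecidableEq V] [Fintype E] [DecidableEq E]
    (src dst : E → V) (hb : ∀ Y : Finset V, (boundary src dst Y).card ≠ 1) (S : Finset V)
    (hS : S.card ≤ 62) (h : ∀ X : Finset V, Heavy src dst X → ¬ Disjoint X S) :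
    ∃ f : E → ℤ, IsFlow src dst f ∧ ∀ e, 1 ≤ |f e| ∧ |f e| ≤ 4 := by
  refine packing V E src dst hb ?_
  rintro ⟨P, h1, h2⟩
  have h3 : ∀ i, ∃ v, v ∈ P i ∧ v ∈ S := fun i => Finset.not_disjoint_iff.1 (h _ (h2 i))
  choose g hg1 hg2 using h3
  have hinj : Function.Injective g := by
    intro i j hij
    by_contra hne
    exact Finset.disjoint_left.1 (h1 i j hne) (hg1 i) (hij ▸ hg1 j)
  have h4 : (Finset.univ.image g).card ≤ S.card :=
    Finset.card_le_card fun v hv => by
      obtain ⟨i, -, rfl⟩ := Finset.mem_image.1 hv
      exact hg2 i
  rw [Finset.card_image_of_injective _ hinj, Finset.card_univ, Fintype.card_fin] at h4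
  omega

end Pool.Agent.Results.MP_c8786f_co.PackingBranchVertices
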