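import Mathlib
import Pool.Agent.TH497.PW.IntFlow
import Pool.Agent.TH362.FP.Pos
import Pool.Agent.Y335.FL.Main
import Pool.Agent.Y335.FL.Local11
import Pool.Agent.Run7.h423.VT.Cuts
import Pool.Agent.Run7.h423.VT.Walks
import Pool.Agent.Run7.h423.VT.Fam

set_option autoImplicit false

/-!
# Nowhere-zero 5-flows of vertex-transitive graphs with a short cycle (MP_c8786f_co)

Let `G` be a finite connected vertex-transitive simple graph.  If the degree of `G` is at least
four, or if `G` has a cycle with at least four edges of which at most eleven lie in no triangle of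
`G` (for example any cycle of length `4, ..., 11`), then `G` has a nowhere-zero 5-flow, and the
characteristic polynomial of the bond matroid of `G` is positive at all integers `q ≥ 5`.

So the 5-flow conjecture for vertex-transitive graphs (in particular for Cayley graphs) is open only
for the cubic ones of girth at least twelve and for the truncations (every vertex replaced by a
triangle) of the cubic arc-transitive graphs of girth at least twelve.

Proof.  (1) A smallest edge cut of a connected vertex-transitive graph of degree `d` has at least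
`d` edges: a smallest side `X` of it is disjoint from or equal to all its images under
automorphisms, so every vertex of `X` has the same number `t ≥ 1` of neighbours outside `X`, and
the cut has `t |X| ≥ t (d - t + 1) ≥ d` edges.  (2) In the same way, if `d = 3` and some cut with
three edges isolates no vertex, then a smallest side `X` of such a cut is a block of imprimitivity
with `3 = t |X|`, so that `X` is a triangle with `t = 1`.  (3) Let `F` be the union of a maximal
family of cycles with at most eleven edges outside the union of the earlier ones.  `F` contains all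
triangles and all images of the short cycle, and hence at least two edges at every vertex; if there
is a triangle as in (2), then `F` contains all edges, since the short cycle leaves the triangle
through one of its vertices, and the edges leaving the images of the triangle are all images of that
edge.  So every edge cut which avoids `F` has at least four edges.  (4) By the starting files
(`Y335/FL`: circuits with at most eleven edges can be contracted) `G` has a nowhere-zero 5-flow.
-/

namespace Pool.Agent.Results.MP_c8786f_co.VertexTransitive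

open Pool.Agent.TH497.PW Pool.Agent.Run7.H423.VT

variable {V E : Type}

/-- The edges with exactly one end in `X`. -/
def boundary [DecidableEq V] [Fintype E] (src dst : E → V) (X : Finset V) : Finset E :=
  Finset.univ.filter (fun e => ¬ (src e ∈ X ↔ dst e ∈ X))

/-- Kirchhoff's law. -/
def IsFlow [DecidableEq V] [Fintype E] (src dst : E → V) (f : E → ℤ) : Prop :=
  ∀ v : V, ∑ e ∈ Finset.univ.filter (fun e => src e = v), f e
    = ∑ e ∈ Finset.univ.filter (fun e => dst e = v), f e

/-- The number of the components of the graph with the vertices `V` and the edges `A`. -/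
noncomputable def components (src dst : E → V) (A : Finset E) : ℕ :=
  Nat.card (SimpleGraph.fromRel
    (fun u v : V => ∃ e ∈ A, src e = u ∧ dst e = v)).ConnectedComponent

/-- The rank of `A` in the cycle matroid of the graph. -/
noncomputable def cycleRank [Fintype V] (src dst : E → V) (A : Finset E) : ℕ :=
  Fintype.card V - components src dst A

/-- The rank of `A` in the bond matroid of the graph (the dual of the cycle matroid). -/
noncomputable def bondRank [Fintype V] [Fintype E] [DecidableEq E] (src dst : E → V)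
    (A : Finset E) : ℕ :=
  A.card + cycleRank src dst Aᶜ - cycleRank src dst Finset.univ

/-- The characteristic polynomial of the bond matroid at the integer `x`. -/
noncomputable def bondCharPoly [Fintype V] [Fintype E] [DecidableEq E] (src dst : E → V)
    (x : ℤ) : ℤ :=
  ∑ A : Finset E, (-1) ^ A.card * x ^ (bondRank src dst Finset.univ - bondRank src dst A)

/-- The edge `e` lies in a triangle. -/
def InTriangle (G : SimpleGraph V) (e : Sym2 V) : Prop :=
  ∃ a b c, G.Adj a b ∧ G.Adj b c ∧ G.Adj c a ∧ e = s(a, b)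

theorem isFlow_iff [DecidableEq V] [Fintype E] (src dst : E → V) (f : E → ℤ) :
    IsFlow src dst f ↔
      ∀ v, ∑ e, f e * ((if src e = v then 1 else 0) - (if dst e = v then 1 else 0)) = 0 := by
  unfold IsFlow
  refine forall_congr' fun v => ?_
  rw [Finset.sum_filter, Finset.sum_filter, ← sub_eq_zero, ← Finset.sum_sub_distrib]
  have : ∀ e, (if src e = v then f e else 0) - (if dst e = v then f e else 0)
      = f e * ((if src e = v then 1 else 0) - (if dst e = v then 1 else 0)) := by
    intro e
    by_cases h1 : src e = v <;> by_cases h2 : dst e = v <;> simp [h1, h2]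
  rw [Finset.sum_congr rfl (fun e _ => this e)]

theorem nzf [Fintype V] [DecidableEq V] [Fintype E] [DecidableEq E] (src dst : E → V)
    (h : Pool.Agent.TH676.Z.FlowOn src dst ∅ ∅) : NZF src dst := by
  obtain ⟨f, h1, _, h3⟩ := h
  refine ⟨f, fun e => h3 e (Finset.notMem_empty _) (Finset.notMem_empty _), fun x => ?_⟩
  rw [← h1 x]
  unfold Pool.Agent.TH676.Z.bd
  refine Finset.sum_congr rfl fun e _ => ?_
  unfold ic
  by_cases h4 : src e = x <;> by_cases h5 : dst e = x <;> simp [h4, h5]

theorem charPoly_pos [Fintype V] [DecidableEq V] [Fintype E] [DecidableEq E] (src dst : E → V)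
    (f : E → ℤ) (h1 : IsFlow src dst f) (h2 : ∀ e, 1 ≤ |f e| ∧ |f e| ≤ 4) (q : ℕ) (hq : 5 ≤ q) :
    0 < bondCharPoly src dst q :=
  Pool.Agent.TH362.FP.chr_pos src dst f h2 h1 q hq

/-- the set `C` is the support of a flow with values in `{0, 1, -1}` -/
def Supp [DecidableEq V] [Fintype E] (src dst : E → V) (C : Finset E) : Prop :=
  ∃ z : E → ℤ, IsFlow src dst z ∧ (∀ e, z e = 0 ∨ z e = 1 ∨ z e = -1) ∧ ∀ e, z e ≠ 0 ↔ e ∈ C

/-- the reduction modulo five of a flow with values in `{0, 1, -1}` -/
theorem mod5 [Fintype V] [DecidableEq V] [Fintype E] [DecidableEq E] (src dst : E → V)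
    (C : Finset E) (h : Supp src dst C) :
    ∃ z : E → ZMod 5, (∀ v, Pool.Agent.TH676.Z.bd src dst z v = 0) ∧
      (∀ e, z e = 0 ∨ z e = 1 ∨ z e = -1) ∧ ∀ e, z e ≠ 0 ↔ e ∈ C := by
  obtain ⟨z, h1, h2, h3⟩ := h
  refine ⟨fun e => ((z e : ℤ) : ZMod 5), fun v => ?_, fun e => ?_, fun e => ?_⟩
  · have h4 := h1 v
    rw [Finset.sum_filter, Finset.sum_filter, ← sub_eq_zero, ← Finset.sum_sub_distrib] at h4
    have h5 := congrArg (fun t : ℤ => (t : ZMod 5)) h4
    simp only [Int.cast_sum, Int.cast_sub, Int.cast_zero] at h5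
    refine Eq.trans ?_ h5
    unfold Pool.Agent.TH676.Z.bd
    rw [Finset.sum_sub_distrib, Finset.sum_sub_distrib]
    congr 1 <;>
    · refine Finset.sum_congr rfl fun e _ => ?_
      split_ifs <;> simp
  · rcases h2 e with h | h | h <;> simp [h]
  · rw [← h3 e]
    have h10 : (1 : ZMod 5) ≠ 0 := by decide
    rcases h2 e with h | h | h <;> simp [h, h10]

/-- the flow, if all edge cuts avoiding the cycles have at least four edges -/
theorem flow_of_cuts [Fintype V] [DecidableEq V] [Fintype E] [DecidableEq E] (src dst : E → V)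
    (m : ℕ) (C : Fin m → Finset E) (hC : Fam (Supp src dst) 11 m C)
    (h4 : ∀ X : Finset V, X.Nonempty → X ≠ Finset.univ →
      Disjoint (boundary src dst X) (Finset.univ.biUnion C) → 4 ≤ (boundary src dst X).card) :
    (∃ f : E → ℤ, IsFlow src dst f ∧ ∀ e, 1 ≤ |f e| ∧ |f e| ≤ 4) ∧
      ∀ q : ℕ, 5 ≤ q → 0 < bondCharPoly src dst q := by
  have hfl := Pool.Agent.Y335.FL.local11 Pool.Agent.Y335.FL.quot' Pool.Agent.Y335.FL.lift_all
    V E src dst m C (fun i => mod5 src dst (C i) (hC.1 i)) hC.2
    (fun X h1 h2 h3 => by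
      have h5 : 4 ≤ (boundary src dst X).card := h4 X h1 h2 h3
      have h6 : 3 ≤ (boundary src dst X).card := by omega
      exact h6) (by
      intro X _ hcd
      exfalso
      have h1 := hcd 0
      have h10 : (boundary src dst (X 0)).card = 3 := h1.1
      have hne : (X 0).Nonempty := by
        rw [Finset.nonempty_iff_ne_empty]
        intro h
        rw [h] at h10
        simp [boundary] at h10
      have hnu : X 0 ≠ Finset.univ := by
        intro h
        rw [h] at h10
        simp [boundary] at h10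
      have := h4 (X 0) hne hnu h1.2
      omega)
  obtain ⟨F, hF, hF0⟩ := int_flow src dst (nzf src dst hfl)
  have hF1 := (isFlow_iff src dst F).mpr hF0
  exact ⟨⟨F, hF1, hF⟩, fun q hq => charPoly_pos src dst F hF1 hF q hq⟩

section Graph

variable [Fintype V] [DecidableEq V] (G : SimpleGraph V) [DecidableRel G.Adj]
  (src dst : G.edgeSet → V)

omit [Fintype V] [DecidableEq V] [DecidableRel G.Adj] in
lemma ne_of_orient (ho : ∀ e : G.edgeSet, s(src e, dst e) = (e : Sym2 V)) (e : G.edgeSet) :
    G.Adj (src e) (dst e) := by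
  have h : s(src e, dst e) ∈ G.edgeSet := by
    rw [ho e]
    exact e.2
  exact h

/-- the closed walks without repeated edges are supports -/
lemma supp_walk (ho : ∀ e : G.edgeSet, s(src e, dst e) = (e : Sym2 V)) {a : V} (p : G.Walk a a)
    (hp : p.edges.Nodup) :
    Supp src dst (Finset.univ.filter (fun e : G.edgeSet => (e : Sym2 V) ∈ p.edges)) := by
  refine ⟨fun e => wz (src e) (dst e) p, ?_, fun e => ?_, fun e => ?_⟩
  · rw [isFlow_iff]
    intro v
    rw [kirchhoff src dst ho p v, sub_self]
  · by_cases h : s(src e, dst e) ∈ p.edges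
    · exact Or.inr (wz_pm _ _ (ne_of_orient G src dst ho e).ne p hp h)
    · exact Or.inl (wz_zero _ _ p h)
  · simp only [Finset.mem_filter, Finset.mem_univ, true_and]
    rw [← ho e]
    constructor
    · intro h
      by_contra hcon
      exact h (wz_zero _ _ p hcon)
    · intro h
      rcases wz_pm _ _ (ne_of_orient G src dst ho e).ne p hp h with h1 | h1 <;> simp [h1]

/-- the number of the edges of a cut -/
lemma card_boundary (ho : ∀ e : G.edgeSet, s(src e, dst e) = (e : Sym2 V)) (X : Finset V) :
    (boundary src dst X).card = cut G X := by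
  have h1 : cut G X = ((Finset.univ : Finset (V × V)).filter
      (fun p => G.Adj p.1 p.2 ∧ p.1 ∈ X ∧ p.2 ∉ X)).card := by
    rw [cut_eq, Finset.card_filter, Fintype.sum_prod_type]
  rw [h1]
  symm
  refine Finset.card_bij (fun p hp => ⟨s(p.1, p.2), (Finset.mem_filter.mp hp).2.1⟩) ?_ ?_ ?_
  · rintro ⟨u, v⟩ hp
    obtain ⟨huv, hu, hv⟩ := (Finset.mem_filter.mp hp).2
    simp only at huv hu hv
    simp only [boundary, Finset.mem_filter, Finset.mem_univ, true_and]
    rcases Sym2.eq_iff.mp (ho ⟨s(u, v), huv⟩) with ⟨h3, h4⟩ | ⟨h3, h4⟩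
    · rw [h3, h4]
      tauto
    · rw [h3, h4]
      tauto
  · rintro ⟨u, v⟩ hp ⟨u', v'⟩ hp' h
    obtain ⟨huv, hu, hv⟩ := (Finset.mem_filter.mp hp).2
    obtain ⟨huv', hu', hv'⟩ := (Finset.mem_filter.mp hp').2
    simp only at huv hu hv huv' hu' hv'
    have h2 : s(u, v) = s(u', v') := congrArg Subtype.val h
    rcases Sym2.eq_iff.mp h2 with ⟨h3, h4⟩ | ⟨h3, h4⟩
    · rw [h3, h4]
    · exact absurd (h3 ▸ hu) hv'
  · intro e he
    have he' := (Finset.mem_filter.mp he).2
    have hadj := ne_of_orient G src dst ho e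
    by_cases h2 : src e ∈ X
    · have h3 : dst e ∉ X := fun h3 => he' ⟨fun _ => h3, fun _ => h2⟩
      exact ⟨(src e, dst e), by simp [hadj, h2, h3], Subtype.ext (ho e)⟩
    · have h3 : dst e ∈ X := by
        by_contra h3
        exact he' ⟨fun h => absurd h h2, fun h => absurd h h3⟩
      refine ⟨(dst e, src e), by simp [hadj.symm, h2, h3], Subtype.ext ?_⟩
      rw [← ho e]
      exact Sym2.eq_swap

omit [Fintype V] [DecidableEq V] [DecidableRel G.Adj] in
lemma inTriangle_map (φ : G ≃g G) (e : Sym2 V) (h : InTriangle G e) :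
    InTriangle G (e.map φ) := by
  obtain ⟨a, b, c, h1, h2, h3, rfl⟩ := h
  exact ⟨φ a, φ b, φ c, φ.map_adj_iff.mpr h1, φ.map_adj_iff.mpr h2, φ.map_adj_iff.mpr h3,
    rfl⟩

/-- the closed family contains all edges in triangles -/
lemma tri_mem (ho : ∀ e : G.edgeSet, s(src e, dst e) = (e : Sym2 V)) (F : Finset G.edgeSet)
    (hF : ∀ S, Supp src dst S → (S \ F).card ≤ 11 → S ⊆ F) (e : G.edgeSet)
    (he : InTriangle G e) : e ∈ F := by
  obtain ⟨a, b, c, h1, h2, h3, h4⟩ := he
  set p : G.Walk a a := .cons h1 (.cons h2 (.cons h3 .nil)) with hp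
  have hedges : p.edges = [s(a, b), s(b, c), s(c, a)] := by simp [hp]
  have hnd : p.edges.Nodup := by
    rw [hedges]
    have k1 : s(a, b) ≠ s(b, c) := by
      rw [Ne, Sym2.eq_iff]
      rintro (⟨h, h'⟩ | ⟨h, h'⟩)
      · exact h1.ne h
      · exact h3.ne h.symm
    have k2 : s(a, b) ≠ s(c, a) := by
      rw [Ne, Sym2.eq_iff]
      rintro (⟨h, h'⟩ | ⟨h, h'⟩)
      · exact h3.ne h.symm
      · exact h2.ne h'
    have k3 : s(b, c) ≠ s(c, a) := by
      rw [Ne, Sym2.eq_iff]
      rintro (⟨h, h'⟩ | ⟨h, h'⟩)
      · exact h2.ne h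
      · exact h1.ne h.symm
    simp only [List.nodup_cons, List.mem_cons, List.not_mem_nil, or_false, not_or,
      List.nodup_nil, and_true, not_false_iff]
    exact ⟨⟨k1, k2⟩, k3⟩
  have hS := supp_walk G src dst ho p hnd
  refine hF _ hS ?_ ?_
  · refine (Finset.card_le_card Finset.sdiff_subset).trans ?_
    have h5 : ((Finset.univ.filter (fun e : G.edgeSet => (e : Sym2 V) ∈ p.edges)).image
        Subtype.val) ⊆ p.edges.toFinset := by
      intro x hx
      obtain ⟨y, hy, rfl⟩ := Finset.mem_image.mp hx
      exact List.mem_toFinset.mpr (Finset.mem_filter.mp hy).2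
    have h6 := Finset.card_le_card h5
    rw [Finset.card_image_of_injective _ Subtype.val_injective] at h6
    have h7 := p.edges.toFinset_card_le
    have h8 : p.edges.length = 3 := by rw [hedges]; rfl
    omega
  · simp only [Finset.mem_filter, Finset.mem_univ, true_and, hedges, h4]
    simp

/-- the closed family contains all cycles with at most eleven edges outside triangles -/
lemma short_mem (ho : ∀ e : G.edgeSet, s(src e, dst e) = (e : Sym2 V)) (F : Finset G.edgeSet)
    (hF : ∀ S, Supp src dst S → (S \ F).card ≤ 11 → S ⊆ F) {a : V} (p : G.Walk a a)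
    (hp : p.edges.Nodup) (h11 : {e | e ∈ p.edges ∧ ¬ InTriangle G e}.ncard ≤ 11)
    (e : G.edgeSet) (he : (e : Sym2 V) ∈ p.edges) : e ∈ F := by
  refine hF _ (supp_walk G src dst ho p hp) ?_ (Finset.mem_filter.mpr ⟨Finset.mem_univ _, he⟩)
  have h5 : (((Finset.univ.filter (fun e : G.edgeSet => (e : Sym2 V) ∈ p.edges) \ F).image
      Subtype.val : Finset (Sym2 V)) : Set (Sym2 V)) ⊆ {e | e ∈ p.edges ∧ ¬ InTriangle G e} := by
    intro x hx
    obtain ⟨y, hy, rfl⟩ := Finset.mem_image.mp hx
    rw [Finset.mem_sdiff, Finset.mem_filter] at hy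
    exact ⟨hy.1.2, fun h => hy.2 (tri_mem G src dst ho F hF y h)⟩
  have hfin : {e | e ∈ p.edges ∧ ¬ InTriangle G e}.Finite :=
    Set.Finite.subset (List.finite_toSet p.edges) (fun e he => he.1)
  have h6 := Set.ncard_le_ncard h5 hfin
  rw [Set.ncard_coe_finset, Finset.card_image_of_injective _ Subtype.val_injective] at h6
  exact h6.trans h11

/-- the images of a short cycle -/
lemma image_mem (ho : ∀ e : G.edgeSet, s(src e, dst e) = (e : Sym2 V)) (F : Finset G.edgeSet)
    (hF : ∀ S, Supp src dst S → (S \ F).card ≤ 11 → S ⊆ F) {a : V} (p : G.Walk a a)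
    (hp : p.IsCycle) (h11 : {e | e ∈ p.edges ∧ ¬ InTriangle G e}.ncard ≤ 11) (φ : G ≃g G)
    (e : G.edgeSet) (x y : V) (hxy : s(x, y) ∈ p.edges) (he : (e : Sym2 V) = s(φ x, φ y)) :
    e ∈ F := by
  have hinj : Function.Injective φ.toHom := φ.injective
  have hc : (p.map φ.toHom).IsCycle := (SimpleGraph.Walk.isCycle_map_iff_of_injective hinj).mpr hp
  have hedges : (p.map φ.toHom).edges = p.edges.map (Sym2.map φ) := by
    rw [SimpleGraph.Walk.edges_map]
    rfl
  refine short_mem G src dst ho F hF (p.map φ.toHom) hc.isCircuit.isTrail.edges_nodup ?_ e ?_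
  · have hfin : {e | e ∈ p.edges ∧ ¬ InTriangle G e}.Finite :=
      Set.Finite.subset (List.finite_toSet p.edges) (fun e he => he.1)
    refine le_trans ?_ ((Set.ncard_image_le hfin (f := Sym2.map φ)).trans h11)
    refine Set.ncard_le_ncard ?_ (hfin.image _)
    rintro z ⟨hz, hz'⟩
    rw [hedges, List.mem_map] at hz
    obtain ⟨w, hw, rfl⟩ := hz
    exact ⟨w, ⟨hw, fun h => hz' (inTriangle_map G φ w h)⟩, rfl⟩
  · rw [hedges, he, List.mem_map]
    exact ⟨s(x, y), hxy, rfl⟩

/-- a triangle whose vertices have degree three and one neighbour outside -/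
lemma inTriangle_of (hd : ∀ v, G.degree v = 3) (T : Finset V) (hT : T.card = 3)
    (h1 : ∀ v ∈ T, out G T v = 1) (v w : V) (hv : v ∈ T) (hw : w ∈ T) (hvw : v ≠ w) :
    InTriangle G s(v, w) := by
  have hadj : ∀ a ∈ T, ∀ b ∈ T, a ≠ b → G.Adj a b := by
    intro a ha b hb hab
    have h2 := inn_add_out G T a
    rw [hd, h1 a ha] at h2
    have h3 : (Finset.univ.filter (fun w => G.Adj a w ∧ w ∈ T)) ⊆ T.erase a := by
      intro w hw
      simp only [Finset.mem_filter, Finset.mem_univ, true_and] at hw
      refine Finset.mem_erase.mpr ⟨?_, hw.2⟩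
      rintro rfl
      exact G.irrefl hw.1
    have h4 : (Finset.univ.filter (fun w => G.Adj a w ∧ w ∈ T)) = T.erase a := by
      refine Finset.eq_of_subset_of_card_le h3 ?_
      rw [Finset.card_erase_of_mem ha, hT]
      unfold inn at h2
      omega
    have h5 : b ∈ T.erase a := Finset.mem_erase.mpr ⟨hab.symm, hb⟩
    rw [← h4] at h5
    exact (Finset.mem_filter.mp h5).2.1
  obtain ⟨c, hc⟩ : ((T.erase v).erase w).Nonempty := by
    rw [← Finset.card_pos, Finset.card_erase_of_mem (Finset.mem_erase.mpr ⟨hvw.symm, hw⟩),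
      Finset.card_erase_of_mem hv, hT]
    norm_num
  rw [Finset.mem_erase, Finset.mem_erase] at hc
  exact ⟨v, w, c, hadj v hv w hw hvw, hadj w hw c hc.2.2 (Ne.symm hc.1),
    hadj c hc.2.2 v hv hc.2.1, rfl⟩

omit [Fintype V] [DecidableEq V] [DecidableRel G.Adj] in
lemma mk_comm' (F : Finset G.edgeSet) (u v : V) (h : G.Adj u v)
    (hm : (⟨s(u, v), h⟩ : G.edgeSet) ∈ F) : (⟨s(v, u), h.symm⟩ : G.edgeSet) ∈ F := by
  have : (⟨s(v, u), h.symm⟩ : G.edgeSet) = ⟨s(u, v), h⟩ := Subtype.ext Sym2.eq_swap
  rw [this]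
  exact hm

lemma no_cross (ho : ∀ e : G.edgeSet, s(src e, dst e) = (e : Sym2 V)) (F : Finset G.edgeSet)
    (X : Finset V) (hdis : Disjoint (boundary src dst X) F) (u w : V) (hu : u ∈ X) (hw : w ∉ X)
    (h : G.Adj u w) : (⟨s(u, w), h⟩ : G.edgeSet) ∉ F := by
  intro hm
  refine (Finset.disjoint_left.mp hdis) ?_ hm
  simp only [boundary, Finset.mem_filter, Finset.mem_univ, true_and]
  rcases Sym2.eq_iff.mp (ho ⟨s(u, w), h⟩) with ⟨h3, h4⟩ | ⟨h3, h4⟩
  · rw [h3, h4]
    tauto
  · rw [h3, h4]
    tauto

/-- the cuts avoiding the closed family: graphs with a transitive automorphism group -/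
theorem vt_cut (ho : ∀ e : G.edgeSet, s(src e, dst e) = (e : Sym2 V)) (hG : G.Connected)
    (hT : ∀ u v, ∃ φ : G ≃g G, φ u = v) (F : Finset G.edgeSet)
    (hF : ∀ S, Supp src dst S → (S \ F).card ≤ 11 → S ⊆ F) {a : V} (p : G.Walk a a)
    (hp : p.IsCycle) (h4 : 4 ≤ p.length) (h11 : {e | e ∈ p.edges ∧ ¬ InTriangle G e}.ncard ≤ 11)
    (X : Finset V) (h1 : X.Nonempty) (h2 : X ≠ Finset.univ)
    (hdis : Disjoint (boundary src dst X) F) : 4 ≤ (boundary src dst X).card := by
  by_contra hcon
  push Not at hcon
  rw [card_boundary G src dst ho] at hcon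
  have hd : ∀ v, G.degree v = G.degree a := fun v => degree_const G hT v a
  have hge := cut_ge G hG hT _ hd X h1 h2
  have hcross := no_cross G src dst ho F X hdis
  have hnotall : ¬ ∀ u w (h : G.Adj u w), (⟨s(u, w), h⟩ : G.edgeSet) ∈ F := by
    intro hall
    obtain ⟨u, hu, w, hw, h⟩ := cut_pos G hG X h1 h2
    exact hcross u w hu hw h (hall u w h)
  have himg := image_mem G src dst ho F hF p hp h11
  have hnil : ¬ p.Nil := hp.not_nil
  have hb := p.mk_start_snd_mem_edges hnil
  have hc := p.mk_penultimate_end_mem_edges hnil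
  have hbc := hp.snd_ne_penultimate
  -- two edges of `F` at every vertex
  have htwo : ∀ v, ∃ b c, b ≠ c ∧ (∃ h : G.Adj v b, (⟨s(v, b), h⟩ : G.edgeSet) ∈ F) ∧
      ∃ h : G.Adj v c, (⟨s(v, c), h⟩ : G.edgeSet) ∈ F := by
    intro v
    obtain ⟨φ, rfl⟩ := hT a v
    have hab : G.Adj a p.snd := p.adj_snd hnil
    have hca : G.Adj p.penultimate a := p.adj_penultimate hnil
    refine ⟨φ p.snd, φ p.penultimate, fun h => hbc (φ.injective h),
      ⟨φ.map_adj_iff.mpr hab, himg φ _ _ _ hb rfl⟩, ⟨φ.map_adj_iff.mpr hca.symm, ?_⟩⟩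
    exact himg φ _ _ _ hc Sym2.eq_swap
  have hd3 : G.degree a ≤ 3 := by omega
  have hd2 : 2 ≤ G.degree a := by
    obtain ⟨b, c, hne, ⟨hb1, -⟩, hc1, -⟩ := htwo a
    have h5 : ({b, c} : Finset V) ⊆ G.neighborFinset a := by
      intro x hx
      rw [Finset.mem_insert, Finset.mem_singleton] at hx
      rcases hx with rfl | rfl
      · exact (G.mem_neighborFinset a x).mpr hb1
      · exact (G.mem_neighborFinset a x).mpr hc1
    have h6 := Finset.card_le_card h5
    rwa [Finset.card_pair hne, SimpleGraph.card_neighborFinset_eq_degree] at h6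
  rcases Nat.lt_or_ge (G.degree a) 3 with h3 | h3
  · -- degree two
    apply hnotall
    intro u w h
    obtain ⟨b, c, hne, ⟨hb1, hb2⟩, hc1, hc2⟩ := htwo u
    have h5 : ({b, c} : Finset V) ⊆ G.neighborFinset u := by
      intro x hx
      rw [Finset.mem_insert, Finset.mem_singleton] at hx
      rcases hx with rfl | rfl
      · exact (G.mem_neighborFinset u x).mpr hb1
      · exact (G.mem_neighborFinset u x).mpr hc1
    have h6 : ({b, c} : Finset V) = G.neighborFinset u := by
      refine Finset.eq_of_subset_of_card_le h5 ?_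
      rw [Finset.card_pair hne, SimpleGraph.card_neighborFinset_eq_degree, hd u]
      omega
    have h7 : w ∈ ({b, c} : Finset V) := by
      rw [h6]
      exact (G.mem_neighborFinset u w).mpr h
    rw [Finset.mem_insert, Finset.mem_singleton] at h7
    rcases h7 with rfl | rfl
    · exact hb2
    · exact hc2
  · -- degree three
    have hda : G.degree a = 3 := le_antisymm hd3 h3
    rw [hda] at hd hge
    have hcut : cut G X = 3 := by omega
    by_cases hX1 : X.card = 1
    · obtain ⟨v, rfl⟩ := Finset.card_eq_one.mp hX1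
      obtain ⟨b, c, hne, ⟨hb1, hb2⟩, -⟩ := htwo v
      exact hcross v b (Finset.mem_singleton_self v)
        (fun h => hb1.ne (Finset.mem_singleton.mp h).symm) hb1 hb2
    by_cases hX2 : Xᶜ.card = 1
    · obtain ⟨v, hv⟩ := Finset.card_eq_one.mp hX2
      obtain ⟨b, c, hne, ⟨hb1, hb2⟩, -⟩ := htwo v
      have hvX : v ∉ X := by
        rw [← Finset.mem_compl, hv]
        exact Finset.mem_singleton_self v
      have hbX : b ∈ X := by
        by_contra hbX
        rw [← Finset.mem_compl, hv, Finset.mem_singleton] at hbX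
        exact hb1.ne hbX.symm
      exact hcross b v hbX hvX hb1.symm (mk_comm' G F v b hb1 hb2)
    have hX3 : 0 < X.card := Finset.card_pos.mpr h1
    have hX4 : 0 < Xᶜ.card := by
      rw [Finset.card_pos, Finset.nonempty_iff_ne_empty]
      intro h
      exact h2 (by simpa using h)
    obtain ⟨T, hTc, hTo⟩ := nontrivial_cut G hG hT hd X (by omega) (by omega) hcut
    obtain ⟨u0, hu0⟩ : T.Nonempty := Finset.card_pos.mp (by omega)
    have hout : ∀ (φ : G ≃g G) (T : Finset V), (∀ v ∈ T, out G T v = 1) →
        ∀ v ∈ T.image φ, out G (T.image φ) v = 1 := by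
      intro φ T h v hv
      obtain ⟨w, hw, rfl⟩ := Finset.mem_image.mp hv
      rw [out_image]
      exact h w hw
    obtain ⟨φ₀, hφ₀⟩ := hT u0 a
    have ha : a ∈ T.image φ₀ := Finset.mem_image.mpr ⟨u0, hu0, hφ₀⟩
    have hT0c : (T.image φ₀).card = 3 := by
      rw [Finset.card_image_of_injective _ φ₀.injective, hTc]
    have hT0o := hout φ₀ T hTo
    -- the cycle leaves the triangle
    obtain ⟨z, hz, hzT⟩ : ∃ z ∈ p.support.tail, z ∉ T.image φ₀ := by
      by_contra hno
      push Not at hno
      have h5 : p.support.tail.toFinset ⊆ T.image φ₀ := fun z hz =>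
        hno z (List.mem_toFinset.mp hz)
      have h6 := Finset.card_le_card h5
      rw [List.toFinset_card_of_nodup hp.support_nodup, hT0c] at h6
      have h7 := p.length_support
      have h8 : p.support.tail.length = p.support.length - 1 := List.length_tail
      omega
    have hz' : z ∈ p.support := List.mem_of_mem_tail hz
    obtain ⟨dd, hdd, hdd1, hdd2⟩ := (p.takeUntil z hz').exists_boundary_dart
      ((T.image φ₀ : Finset V) : Set V) (by exact_mod_cast ha) (by exact_mod_cast hzT)
    have hdd1' : dd.fst ∈ T.image φ₀ := by exact_mod_cast hdd1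
    have hdd2' : dd.snd ∉ T.image φ₀ := by exact_mod_cast hdd2
    have hddp : dd ∈ p.darts := p.darts_takeUntil_subset_darts hz' hdd
    have hdde : s(dd.fst, dd.snd) ∈ p.edges := List.mem_map.mpr ⟨dd, hddp, rfl⟩
    apply hnotall
    intro u w h
    obtain ⟨ψ, hψ⟩ := hT dd.fst u
    have hT1c : ((T.image φ₀).image ψ).card = 3 := by
      rw [Finset.card_image_of_injective _ ψ.injective, hT0c]
    have hT1o := hout ψ _ hT0o
    have hu1 : u ∈ (T.image φ₀).image ψ := Finset.mem_image.mpr ⟨dd.fst, hdd1', hψ⟩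
    by_cases hw1 : w ∈ (T.image φ₀).image ψ
    · exact tri_mem G src dst ho F hF _ (inTriangle_of G hd _ hT1c hT1o u w hu1 hw1 h.ne)
    · have h9 := hT1o u hu1
      unfold out at h9
      obtain ⟨y, hy⟩ := Finset.card_eq_one.mp h9
      have hwy : w = y := by
        rw [← Finset.mem_singleton, ← hy]
        simp only [Finset.mem_filter, Finset.mem_univ, true_and]
        exact ⟨h, hw1⟩
      have hsy : ψ dd.snd = y := by
        rw [← Finset.mem_singleton, ← hy]
        simp only [Finset.mem_filter, Finset.mem_univ, true_and]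
        refine ⟨?_, fun h10 => hdd2' ?_⟩
        · rw [← hψ]
          exact ψ.map_adj_iff.mpr dd.adj
        · obtain ⟨x, hx, hx'⟩ := Finset.mem_image.mp h10
          rw [← ψ.injective hx']
          exact hx
      refine himg ψ ⟨s(u, w), h⟩ dd.fst dd.snd hdde ?_
      exact (by rw [hψ, hsy, hwy] : s(u, w) = s(ψ dd.fst, ψ dd.snd))

end Graph

/-- `G` has a cycle with at least four edges, at most eleven of which lie in no triangle. -/
def HasShortCycle (G : SimpleGraph V) : Prop :=
  ∃ (a : V) (p : G.Walk a a), p.IsCycle ∧ 4 ≤ p.length ∧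
    {e | e ∈ p.edges ∧ ¬ InTriangle G e}.ncard ≤ 11

theorem result :
    ∀ (V : Type) [Fintype V] [DecidableEq V] (G : SimpleGraph V) [DecidableRel G.Adj]
      (src dst : G.edgeSet → V), (∀ e : G.edgeSet, s(src e, dst e) = (e : Sym2 V)) →
      G.Connected → (∀ u v : V, ∃ φ : G ≃g G, φ u = v) →
      ((∀ v, 4 ≤ G.degree v) ∨ HasShortCycle G) →
      (∃ f : G.edgeSet → ℤ, IsFlow src dst f ∧ ∀ e, 1 ≤ |f e| ∧ |f e| ≤ 4) ∧
      ∀ q : ℕ, 5 ≤ q → 0 < bondCharPoly src dst q := by
  intro V _ _ G _ src dst ho hG hT hyp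
  obtain ⟨m, C, hC, hcl⟩ := exists_closed (Supp src dst) 11
  refine flow_of_cuts src dst m C hC ?_
  intro X h1 h2 hdis
  rcases hyp with h4 | ⟨a, p, hp, h4, h11⟩
  · rw [card_boundary G src dst ho]
    obtain ⟨a, ha⟩ := h1
    exact (h4 a).trans (cut_ge G hG hT _ (fun v => degree_const G hT v a) X ⟨a, ha⟩ h2)
  · exact vt_cut G src dst ho hG hT _ hcl p hp h4 h11 X h1 h2 hdis

end Pool.Agent.Results.MP_c8786f_co.VertexTransitive
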